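import Mathlib
import Pool.Agent.Lib.helper29.Gap1

set_option autoImplicit false

open Pool.Agent.Lib.H29.Gap

namespace Pool.Agent.Results.MP_ec11a7_an.BeyondHalf

theorem result : ∃ α : ℝ, 1 / 2 < α ∧
    (∀ (E : Type) [NormedAddCommGroup E] [NormedSpace ℝ E] (G₁ G₂ : Submodule ℝ E),
      G₁ ≠ ⊥ → G₂ ≠ ⊥ → gap (G₁ : Set E) (G₂ : Set E) < α → dimn ℝ G₁ = dimn ℝ G₂) ∧
    (∀ (E : Type) [NormedAddCommGroup E] [NormedSpace ℂ E] (G₁ G₂ : Submodule ℂ E),
      G₁ ≠ ⊥ → G₂ ≠ ⊥ → gap (G₁ : Set E) (G₂ : Set E) < α → dimn ℂ G₁ = dimn ℂ G₂) := by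
  refine ⟨13 / 25, by norm_num, ?_, ?_⟩
  · intro E _ _ X Y hX hY h
    obtain ⟨h1, h2, h3⟩ := real_case hX hY h
    unfold dimn
    by_cases hf : FiniteDimensional ℝ X
    · rw [if_pos hf, if_pos (h1.1 hf), h2 hf]
    · rw [if_neg hf, if_neg (fun h => hf (h1.2 h)), h3]
  · intro E _ _ X Y hX hY h
    let _ : NormedSpace ℝ E := NormedSpace.restrictScalars ℝ ℂ E
    have : IsScalarTower ℝ ℂ E := ⟨fun a b c => by
      show (a • b) • c = (algebraMap ℝ ℂ a) • b • c
      rw [smul_smul]; rfl⟩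
    obtain ⟨h1, h2, h3⟩ := real_case (X := X.restrictScalars ℝ) (Y := Y.restrictScalars ℝ)
      (by simpa using hX) (by simpa using hY) h
    have key : ∀ Z : Submodule ℂ E, (FiniteDimensional ℝ (Z.restrictScalars ℝ) ↔
        FiniteDimensional ℂ Z) ∧ Module.finrank ℝ (Z.restrictScalars ℝ) = 2 * Module.finrank ℂ Z := by
      intro Z
      have e : (Z.restrictScalars ℝ) ≃ₗ[ℝ] Z :=
        { toFun := fun x => ⟨x.1, x.2⟩, invFun := fun x => ⟨x.1, x.2⟩,
          map_add' := fun _ _ => rfl, map_smul' := fun _ _ => rfl,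
          left_inv := fun _ => rfl, right_inv := fun _ => rfl }
      refine ⟨⟨fun _ => ?_, fun _ => ?_⟩, ?_⟩
      · have : Module.Finite ℝ Z := Module.Finite.equiv e
        exact Module.Finite.of_restrictScalars_finite ℝ ℂ Z
      · have : Module.Finite ℝ Z := Module.Finite.trans ℂ Z
        exact Module.Finite.equiv e.symm
      · rw [e.finrank_eq, ← Module.finrank_mul_finrank ℝ ℂ Z, Complex.finrank_real_complex]
    unfold dimn
    by_cases hf : FiniteDimensional ℂ X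
    · have hf' := (key X).1.2 hf
      rw [if_pos hf, if_pos ((key Y).1.1 (h1.1 hf'))]
      have := h2 hf'
      rw [(key X).2, (key Y).2] at this
      congr 1
      omega
    · rw [if_neg hf, if_neg (fun h => hf ((key X).1.1 (h1.2 ((key Y).1.2 h))))]
      exact h3

end Pool.Agent.Results.MP_ec11a7_an.BeyondHalf
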